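import Pool.Agent.H45.EGH.S3

/-!
# EGH, row EXC: exchange of a quadric by a linear form
-/

set_option autoImplicit false

namespace Pool.EGH

open MvPolynomial

namespace Exc24

variable {K : Type} [Field K] {N : ℕ}

theorem mem_of_comp {J : Ideal (PR K N)} {z : PR K N}
    (h : ∀ d, homogeneousComponent d z ∈ J) : z ∈ J := by
  rw [← sum_homogeneousComponent z]
  exact Ideal.sum_mem _ fun d _ => h d

theorem comp_fm (d : ℕ) (z : PR K N) : homogeneousComponent d z ∈ fm K N d :=
  (mem_homogeneousSubmodule d _).2 (homogeneousComponent_isHomogeneous d z)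

theorem span_sup_singleton (V : Submodule K (PR K N)) (q : PR K N) :
    Ideal.span ((V ⊔ Submodule.span K {q} : Submodule K (PR K N)) : Set (PR K N)) =
      Ideal.span (V : Set (PR K N)) ⊔ Ideal.span {q} := by
  apply le_antisymm
  · rw [Ideal.span_le]
    intro x hx
    obtain ⟨v, hv, w, hw, rfl⟩ := Submodule.mem_sup.1 hx
    obtain ⟨a, rfl⟩ := Submodule.mem_span_singleton.1 hw
    refine add_mem (Ideal.mem_sup_left (Ideal.subset_span hv)) (Ideal.mem_sup_right ?_)
    rw [← C_mul']
    exact Ideal.mul_mem_left _ _ (Ideal.subset_span rfl)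
  · refine sup_le (Ideal.span_mono ?_) (Ideal.span_le.2 ?_)
    · exact fun v hv => (le_sup_left : V ≤ _) hv
    · intro x hx
      rw [Set.mem_singleton_iff.1 hx]
      exact Ideal.subset_span ((le_sup_right : Submodule.span K {q} ≤ V ⊔ Submodule.span K {q})
        (Submodule.mem_span_singleton_self q))

theorem finrank_sup_singleton (hF : FINStmt) {V W : Submodule K (PR K N)} {q : PR K N}
    (hW : W ≤ fm K N 2) (hV : V ≤ W) (hq : q ∈ W) (hn : q ∉ V) :
    Module.finrank K ↥(V ⊔ Submodule.span K {q}) = Module.finrank K V + 1 := by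
  have := hF K N 2
  have : Module.Finite K ↥W := Module.Finite.of_injective (Submodule.inclusion hW)
    (Submodule.inclusion_injective hW)
  have : Module.Finite K ↥V := Module.Finite.of_injective (Submodule.inclusion hV)
    (Submodule.inclusion_injective hV)
  have h1 := Submodule.finrank_sup_add_finrank_inf_eq V (Submodule.span K {q})
  have h2 : V ⊓ Submodule.span K {q} = ⊥ := by
    rw [Submodule.eq_bot_iff]
    intro x hx
    obtain ⟨a, ha⟩ := Submodule.mem_span_singleton.1 hx.2
    by_cases h0 : a = 0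
    · rw [← ha, h0, zero_smul]
    · exfalso
      apply hn
      have h3 : a⁻¹ • x ∈ V := V.smul_mem _ hx.1
      rwa [← ha, smul_smul, inv_mul_cancel₀ h0, one_smul] at h3
  have h4 : Module.finrank K ↥(Submodule.span K {q}) = 1 := by
    apply finrank_span_singleton
    rintro rfl
    exact hn (zero_mem _)
  rw [h2, finrank_bot, h4, add_zero] at h1
  exact h1

/-- The Hilbert functions of `J` and `Q`. -/
theorem hil (hH : HSRStmt) {k r : ℕ} {J Q : Ideal (PR K N)} (hJ : MCI k r J)
    (hQ : MCI k (r + 1) Q) (i : ℕ) : hf Q (i + 2) + hf J i = hf J (i + 2) := by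
  have h1 := hH K N k r J hJ
  have h2 := hH K N k (r + 1) Q hQ
  have h3 : (PowerSeries.mk (fun i => (hf Q i : ℤ))) * (1 - PowerSeries.X) ^ N =
      (PowerSeries.mk (fun i => (hf J i : ℤ)) * (1 - PowerSeries.X ^ 2)) *
        (1 - PowerSeries.X) ^ N := by
    rw [h2, mul_right_comm, h1, pow_succ, mul_assoc]
  have h4 : (1 - PowerSeries.X : PowerSeries ℤ) ≠ 0 := by
    intro h
    have := congrArg (PowerSeries.coeff 0) h
    simp at this
  have h5 := mul_right_cancel₀ (pow_ne_zero N h4) h3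
  have h6 := congrArg (PowerSeries.coeff (i + 2)) h5
  rw [mul_sub, mul_one, map_sub, PowerSeries.coeff_mul_X_pow, PowerSeries.coeff_mk,
    PowerSeries.coeff_mk, PowerSeries.coeff_mk] at h6
  omega

/-- Regularity from Hilbert functions. -/
theorem rg_last (hG : HGAStmt) (hC : COLStmt) (hM : MONStmt) (hH : HSRStmt) {k r : ℕ}
    {J Q : Ideal (PR K N)} {q : PR K N} (hJ : MCI k r J) (hQ : MCI k (r + 1) Q)
    (hq : q ∈ fm K N 2) (hJQ : Q = J ⊔ Ideal.span {q}) : Rg J q := by
  obtain ⟨-, hG2, -, hG4⟩ := hG K N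
  have hgJ : Hg J := hG4 k r J hJ
  have hgc : Hg (clI J q) := (hG2 J 2 q hgJ hq).2
  have hle : J ≤ clI J q := fun f hf => by
    change q * f ∈ J
    exact J.mul_mem_left q hf
  intro z hz
  refine mem_of_comp fun d => ?_
  have h1 : hf (clI J q) d = hf J d := by
    have h2 := (hC K N 2 J q hgJ hq).1 d
    rw [← hJQ] at h2
    have h3 := hil hH hJ hQ d
    omega
  exact (hM K N J (clI J q) d hle).2 h1 _ (hgc z hz d) (comp_fm d z)

end Exc24

open Exc24 in
/-- EXC: exchange of a quadric by a linear form. -/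
theorem t_exc (hF : FINStmt) (hS : SHPStmt) (hL : LINStmt) (hR : RQFStmt) (hP : PNSStmt)
    (hPr : PRMStmt) (hPe : PERStmt) (hH : HSRStmt) (hC : COLStmt) (hM : MONStmt)
    (hCh : CHFStmt) (hG : HGAStmt) : EXCStmt := by
  intro K _ _ N k r Q l hQ hN hl hlQ
  obtain ⟨L, V, hL1, hLk, hV2, hVr, hQe, hLQ⟩ := hS K N k (r + 1) Q hQ
  obtain ⟨hLa, -, hLc⟩ := hL K N L hL1
  rw [hLk] at hLa
  have hlL : l ∉ L := fun h => hlQ (by
    rw [hQe]
    exact Ideal.mem_sup_left (Ideal.subset_span h))
  have hm : ∀ f ∈ fm K N (r + 2), f ∈ Q := by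
    intro f hf1
    have h1 := hCh K N k (r + 1) Q hN hQ (r + 2)
    rw [Nat.choose_eq_zero_of_lt (by omega)] at h1
    have h2 : hf (⊤ : Ideal (PR K N)) (r + 2) = 0 := by
      have := (hM K N Q ⊤ (r + 2) le_top).1
      omega
    exact (hM K N Q ⊤ (r + 2) le_top).2 (by rw [h1, h2]) f Submodule.mem_top hf1
  have := hF K N 2
  have : Module.Finite K ↥V := Module.Finite.of_injective (Submodule.inclusion hV2)
    (Submodule.inclusion_injective hV2)
  have key : ∀ i ≤ r, ∃ V' : Submodule K (PR K N), V' ≤ V ∧ Module.finrank K V' = i ∧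
      MCI k i (Ideal.span (L : Set (PR K N)) ⊔ Ideal.span (V' : Set (PR K N))) ∧
      Rg (Ideal.span (L : Set (PR K N)) ⊔ Ideal.span (V' : Set (PR K N))) l := by
    intro i
    induction i with
    | zero =>
      intro _
      refine ⟨⊥, bot_le, finrank_bot K _, ?_⟩
      have h1 : Ideal.span (((⊥ : Submodule K (PR K N)) : Set (PR K N))) = ⊥ := by
        rw [Submodule.bot_coe]
        exact Ideal.span_zero
      rw [h1, sup_bot_eq]
      exact ⟨hLa, hLc l hl hlL⟩
    | succ i ih =>
      intro hi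
      obtain ⟨V', hV', hVi, hMi, hRi⟩ := ih (by omega)
      set J := Ideal.span (L : Set (PR K N)) ⊔ Ideal.span (V' : Set (PR K N)) with hJ
      have hM1 : MCI (k + 1) i (J ⊔ Ideal.span {l}) := hPe K N k i J l hMi hl hRi
      have hgJ : Hg J := (hG K N).2.2.2 k i J hMi
      have hg1 : Hg (J ⊔ Ideal.span {l}) := ((hG K N).2.1 J 1 l hgJ hl).1
      have hns := hP K N (k + 1) i (J ⊔ Ideal.span {l}) hM1 (by omega)
      have hlt : V' < V := by
        refine lt_of_le_of_ne hV' ?_
        rintro rfl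
        omega
      obtain ⟨q, hqV, hqV', hqr⟩ := hR K N (r + 2) (J ⊔ Ideal.span {l}) V V' hg1 hns hV2 hlt (by
        intro f hf1
        have h1 := hm f hf1
        rw [hQe] at h1
        have h2 : Ideal.span (L : Set (PR K N)) ⊔ Ideal.span (V : Set (PR K N)) ≤
            J ⊔ Ideal.span {l} ⊔ Ideal.span (V : Set (PR K N)) :=
          sup_le_sup_right (le_sup_of_le_left le_sup_left) _
        exact h2 h1)
      obtain ⟨h1, h2⟩ := hPr K N 1 2 J l q hgJ le_rfl (by omega) hl (hV2 hqV) hRi hqr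
      refine ⟨V' ⊔ Submodule.span K {q}, ?_, ?_, ?_⟩
      · exact sup_le hV' ((Submodule.span_singleton_le_iff_mem q V).2 hqV)
      · rw [finrank_sup_singleton hF hV2 hV' hqV hqV', hVi]
      · rw [span_sup_singleton, ← sup_assoc, ← hJ]
        exact ⟨MCI.quad hMi (hV2 hqV) h1, h2⟩
  obtain ⟨V', hV', hVi, hMi, hRi⟩ := key r le_rfl
  obtain ⟨q, hqV, hqV'⟩ : ∃ q ∈ V, q ∉ V' := by
    by_contra hcon
    push Not at hcon
    have : V = V' := le_antisymm hcon hV'
    rw [this] at hVr
    omega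
  have hVe : V' ⊔ Submodule.span K {q} = V := by
    apply Submodule.eq_of_le_of_finrank_eq
    · exact sup_le hV' ((Submodule.span_singleton_le_iff_mem q V).2 hqV)
    · rw [finrank_sup_singleton hF hV2 hV' hqV hqV', hVi, hVr]
  have hQJ : Q = (Ideal.span (L : Set (PR K N)) ⊔ Ideal.span (V' : Set (PR K N))) ⊔
      Ideal.span {q} := by
    rw [hQe, ← hVe, span_sup_singleton, sup_assoc]
  exact ⟨_, q, hQJ, hV2 hqV, rg_last hG hC hM hH hMi hQ (hV2 hqV) hQJ, hRi, hMi⟩

end Pool.EGH
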