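import Pool.Agent.H45.EGH.S3

/-!
# EGH, rows HE1, HED, HET: growth in the easy degrees, for ideals
-/

set_option autoImplicit false

namespace Pool.EGH

open MvPolynomial

theorem im_fin24 (hP : GPMStmt) {K : Type} [Field K] {N : ℕ} {Q I : Ideal (PR K N)} {i : ℕ}
    (h : im Q I i ≤ gp Q i) : Module.Finite K ↥(im Q I i) := by
  have := (hP K N Q).1 i
  exact Module.Finite.of_injective (Submodule.inclusion h) (Submodule.inclusion_injective h)

/-- HE1: growth from degree 1 to degree 2. -/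
theorem t_he1 (hP : GPMStmt) (hG : GR1Stmt) (hI : IMGStmt) : HE1Stmt := by
  intro K _ _ N n Q I hQ hg hle
  obtain ⟨h1, h2, h3⟩ := hI K N n Q I hQ hg hle 1
  obtain ⟨h4, h5, -⟩ := hI K N n Q I hQ hg hle 2
  rw [Nat.choose_one_right] at h2
  by_cases hn : 2 ≤ n
  · have h6 := hG K N n Q hQ hn (im Q I 1) h1
    have h7 : dg Q (im Q I 1) ≤ Module.finrank K ↥(im Q I 2) := by
      have := im_fin24 hP h4
      exact Submodule.finrank_mono h3
    have h8 : n - Module.finrank K ↥(im Q I 1) = hf I 1 := by omega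
    rw [h8] at h6
    omega
  · rw [Nat.choose_eq_zero_of_lt (by omega : n < 2)] at h5
    omega

/-- HED: growth from degree `n - 2` to degree `n - 1`. -/
theorem t_hed (hP : GPMStmt) (hG : GRDStmt) (hI : IMGStmt) : HEDStmt := by
  intro K _ _ N n Q I hQ hg hle
  obtain ⟨h1, h2, h3⟩ := hI K N (n + 2) Q I hQ hg hle n
  obtain ⟨h4, h5, -⟩ := hI K N (n + 2) Q I hQ hg hle (n + 1)
  have h6 := hG K N n Q hQ (im Q I n) h1
  have h7 : dg Q (im Q I n) ≤ Module.finrank K ↥(im Q I (n + 1)) := by
    have := im_fin24 hP h4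
    exact Submodule.finrank_mono h3
  have h8 : (n + 2).choose n = (n + 2).choose 2 := Nat.choose_symm_of_eq_add (by omega)
  have h9 : (n + 2).choose (n + 1) = n + 2 := by
    rw [Nat.choose_symm_of_eq_add (by omega : n + 2 = (n + 1) + 1), Nat.choose_one_right]
  have h10 : (dg Q (im Q I n)).choose 2 ≤ (n + 2 - hf I (n + 1)).choose 2 :=
    Nat.choose_le_choose 2 (by omega)
  omega

/-- HET: growth from degree `n - 1` to degree `n`. -/
theorem t_het (hP : GPMStmt) (hG : GRTStmt) (hI : IMGStmt) : HETStmt := by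
  intro K _ _ N n Q I hQ hg hle hne
  obtain ⟨h1, h2, h3⟩ := hI K N (n + 1) Q I hQ hg hle n
  obtain ⟨h4, h5, -⟩ := hI K N (n + 1) Q I hQ hg hle (n + 1)
  have h9 : (n + 1).choose n = n + 1 := by
    rw [Nat.choose_symm_of_eq_add (by omega : n + 1 = n + 1), Nat.choose_one_right]
  rw [Nat.choose_self] at h5
  have h6 : im Q I n = ⊥ := by
    by_contra hb
    have h7 := hG K N n Q hQ (im Q I n) h1 hb
    have h8 : dg Q (im Q I n) ≤ Module.finrank K ↥(im Q I (n + 1)) := by
      have := im_fin24 hP h4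
      exact Submodule.finrank_mono h3
    omega
  rw [h6, finrank_bot] at h2
  omega

end Pool.EGH
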