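import Pool.Agent.H45.EGH.S3

/-!
# EGH, row HSB: the Hilbert series of the polynomial ring
-/

set_option autoImplicit false

namespace Pool.EGH

open MvPolynomial

theorem finrank_fm24 (K : Type) [Field K] (N i : ℕ) : Module.finrank K ↥(fm K N i) =
    (Finset.finsuppAntidiag (Finset.univ : Finset (Fin N)) i).card := by
  have h1 : ({d | d.degree = i} : Set (Fin N →₀ ℕ)) =
      ↑(Finset.finsuppAntidiag (Finset.univ : Finset (Fin N)) i) := by
    ext d
    rw [Finset.mem_coe, Finset.mem_finsuppAntidiag, Set.mem_ofPred_eq, Finsupp.degree_eq_sum]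
    simp
  have h2 : fm K N i = AddMonoidAlgebra.supported K K
      (↑(Finset.finsuppAntidiag (Finset.univ : Finset (Fin N)) i) : Set (Fin N →₀ ℕ)) := by
    rw [← h1]
    exact homogeneousSubmodule_eq_finsupp_supported (Fin N) K i
  rw [h2, (AddMonoidAlgebra.supportedEquivFinsupp _).finrank_eq, Module.finrank_finsupp_self]
  simp

/-- HSB: the Hilbert series of the polynomial ring. -/
theorem t_hsb : HSBStmt := by
  intro K _ N
  have h1 : PowerSeries.mk (fun i => (Module.finrank K ↥(fm K N i) : ℤ)) =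
      (PowerSeries.mk 1 : PowerSeries ℤ) ^ N := by
    ext i
    have h2 : (PowerSeries.mk 1 : PowerSeries ℤ) ^ N =
        ∏ _j ∈ (Finset.univ : Finset (Fin N)), (PowerSeries.mk 1 : PowerSeries ℤ) := by simp
    rw [PowerSeries.coeff_mk, h2, PowerSeries.coeff_prod, finrank_fm24]
    simp
  rw [h1, ← mul_pow, PowerSeries.mk_one_mul_one_sub_eq_one, one_pow]

end Pool.EGH
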