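import Pool.Agent.H45.EGH.S3
import Pool.Agent.H29.EGH.HGA

/-!
# EGH, row UPI: the ideal generated by a subspace
-/

set_option autoImplicit false

namespace Pool.EGH

open MvPolynomial

namespace Upi24

variable {K : Type} [Field K] {N : ℕ}

theorem mk_comp_eq {Q : Ideal (PR K N)} (hQ : Hg Q) {f g : PR K N}
    (h : Ideal.Quotient.mk Q f = Ideal.Quotient.mk Q g) (d : ℕ) :
    Ideal.Quotient.mk Q (homogeneousComponent d f) =
      Ideal.Quotient.mk Q (homogeneousComponent d g) := by
  rw [Ideal.Quotient.eq] at h ⊢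
  rw [← map_sub]
  exact hQ _ h d

/-- The components of the elements of the ideal generated by `V`. -/
theorem comp_span (hP : GPMStmt) {Q : Ideal (PR K N)} (hQ : Hg Q) {i : ℕ}
    {V : Submodule K (PR K N ⧸ Q)} (hV : V ≤ gp Q i) {x : PR K N ⧸ Q}
    (hx : x ∈ Ideal.span (V : Set (PR K N ⧸ Q))) : ∀ f : PR K N, Ideal.Quotient.mk Q f = x →
    (∀ j, Ideal.Quotient.mk Q (homogeneousComponent (i + j) f) ∈ gp Q j * V) ∧
    ∀ d < i, Ideal.Quotient.mk Q (homogeneousComponent d f) = 0 := by
  obtain ⟨-, hP2, hP3, hP4⟩ := hP K N Q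
  induction hx using Submodule.span_induction with
  | mem v hv =>
    intro f hf
    obtain ⟨g, hg, hgv⟩ := hV hv
    have hgv' : Ideal.Quotient.mk Q g = v := hgv
    have h1 := mk_comp_eq hQ (hf.trans hgv'.symm)
    constructor
    · intro j
      rw [h1, homogeneousComponent_of_mem hg]
      split_ifs with hj
      · have h0 : j = 0 := by omega
        subst h0
        rw [hgv', hP3 V]
        exact hv
      · rw [map_zero]
        exact zero_mem _
    · intro d hd
      rw [h1, homogeneousComponent_of_mem hg, if_neg (by omega), map_zero]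
  | zero =>
    intro f hf
    have h1 := mk_comp_eq hQ (g := 0) (hf.trans (map_zero _).symm)
    constructor
    · intro j
      rw [h1, map_zero, map_zero]
      exact zero_mem _
    · intro d _
      rw [h1, map_zero, map_zero]
  | add x y _ _ ihx ihy =>
    intro f hf
    obtain ⟨g, hg⟩ := Ideal.Quotient.mk_surjective x
    have h1 := ihx g hg
    have h2 := ihy (f - g) (by rw [map_sub, hf, hg, add_sub_cancel_left])
    have h3 : ∀ d, homogeneousComponent d f = homogeneousComponent d g +
        homogeneousComponent d (f - g) := fun d => by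
      rw [← map_add, add_sub_cancel]
    constructor
    · intro j
      rw [h3, map_add]
      exact add_mem (h1.1 j) (h2.1 j)
    · intro d hd
      rw [h3, map_add, h1.2 d hd, h2.2 d hd, add_zero]
  | smul a x _ ihx =>
    intro f hf
    obtain ⟨g, hg⟩ := Ideal.Quotient.mk_surjective x
    obtain ⟨b, hb⟩ := Ideal.Quotient.mk_surjective a
    obtain ⟨h1, h2⟩ := ihx g hg
    have h3 := mk_comp_eq hQ (f := f) (g := b * g) (by rw [hf, map_mul, hb, hg, smul_eq_mul])
    have h4 : ∀ d, homogeneousComponent d (b * g) = ∑ k ∈ Finset.range (b.totalDegree + 1),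
        homogeneousComponent d (homogeneousComponent k b * g) := fun d => by
      rw [← map_sum, ← Finset.sum_mul, sum_homogeneousComponent]
    have hcm : ∀ k, homogeneousComponent k b ∈ fm K N k := fun k =>
      (mem_homogeneousSubmodule k _).2 (homogeneousComponent_isHomogeneous k b)
    constructor
    · intro j
      rw [h3, h4, map_sum]
      refine Submodule.sum_mem _ fun k _ => ?_
      by_cases hk : i + j < k
      · rw [HGA.hc_mul_lt (hcm k) g hk, map_zero]
        exact zero_mem _
      · obtain ⟨e, he⟩ := Nat.exists_eq_add_of_le (not_lt.1 hk)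
        rw [he, HGA.hc_mul (hcm k) g e, map_mul]
        by_cases hei : e < i
        · rw [h2 e hei, mul_zero]
          exact zero_mem _
        · obtain ⟨j', hj'⟩ := Nat.exists_eq_add_of_le (not_lt.1 hei)
          have hjj : j = k + j' := by omega
          have h5 : gp Q (k + j') * V = gp Q k * (gp Q j' * V) := by
            rw [← hP2]
            exact mul_assoc (gp Q k) (gp Q j') V
          rw [hj', hjj, h5]
          exact Submodule.mul_mem_mul (hP4 k _ (hcm k)) (h1 j')
    · intro d hd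
      rw [h3, h4, map_sum]
      refine Finset.sum_eq_zero fun k _ => ?_
      by_cases hk : d < k
      · rw [HGA.hc_mul_lt (hcm k) g hk, map_zero]
      · obtain ⟨e, he⟩ := Nat.exists_eq_add_of_le (not_lt.1 hk)
        rw [he, HGA.hc_mul (hcm k) g e, map_mul, h2 e (by omega), mul_zero]

theorem mul_le_span (Q : Ideal (PR K N)) (W V : Submodule K (PR K N ⧸ Q)) {x : PR K N ⧸ Q}
    (hx : x ∈ W * V) : x ∈ Ideal.span (V : Set (PR K N ⧸ Q)) := by
  have h1 : W * V ≤ (Ideal.span (V : Set (PR K N ⧸ Q))).restrictScalars K := by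
    rw [Submodule.mul_le]
    intro a _ v hv
    exact Ideal.mul_mem_left _ _ (Ideal.subset_span hv)
  exact h1 hx

/-- The degree pieces of the ideal generated by `V`. -/
theorem im_upI (hP : GPMStmt) {Q : Ideal (PR K N)} (hQ : Hg Q) {i : ℕ}
    {V : Submodule K (PR K N ⧸ Q)} (hV : V ≤ gp Q i) (j : ℕ) :
    im Q (upI Q V) (i + j) = gp Q j * V := by
  obtain ⟨-, -, -, hP4⟩ := hP K N Q
  apply le_antisymm
  · rintro _ ⟨f, ⟨hf1, hf2⟩, rfl⟩
    have h1 := (comp_span hP hQ hV (x := Ideal.Quotient.mk Q f) hf1 f rfl).1 j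
    rwa [homogeneousComponent_of_mem hf2, if_pos rfl] at h1
  · rw [Submodule.mul_le]
    intro a ha v hv
    obtain ⟨b, hb, rfl⟩ := ha
    obtain ⟨g, hg, rfl⟩ := hV hv
    refine ⟨b * g, ⟨?_, ?_⟩, map_mul (Ideal.Quotient.mk Q) b g⟩
    · change Ideal.Quotient.mk Q (b * g) ∈ Ideal.span (V : Set (PR K N ⧸ Q))
      rw [map_mul]
      exact Ideal.mul_mem_left _ _ (Ideal.subset_span hv)
    · rw [add_comm i j]
      exact homogeneousSubmodule_mul (σ := Fin N) (R := K) j i (Submodule.mul_mem_mul hb hg)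

theorem hg_upI (hP : GPMStmt) {Q : Ideal (PR K N)} (hQ : Hg Q) {i : ℕ}
    {V : Submodule K (PR K N ⧸ Q)} (hV : V ≤ gp Q i) : Hg (upI Q V) := by
  intro f hf d
  have h1 := comp_span hP hQ hV (x := Ideal.Quotient.mk Q f) hf f rfl
  change Ideal.Quotient.mk Q (homogeneousComponent d f) ∈ Ideal.span (V : Set (PR K N ⧸ Q))
  by_cases hd : d < i
  · rw [h1.2 d hd]
    exact zero_mem _
  · obtain ⟨j, rfl⟩ := Nat.exists_eq_add_of_le (not_lt.1 hd)
    exact mul_le_span Q _ V (h1.1 j)

end Upi24

/-- UPI: the ideal generated by a subspace. -/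
theorem t_upi (hP : GPMStmt) (hG : HGAStmt) (hI : IMGStmt) : UPIStmt := by
  intro K _ N n i Q V hQ hV
  have hgQ : Hg Q := by
    obtain ⟨k, -, hQ'⟩ := hQ
    exact (hG K N).2.2.2 k n Q hQ'
  have h1 : Hg (upI Q V) := Upi24.hg_upI hP hgQ hV
  have h2 : Q ≤ upI Q V := by
    intro f hf
    change Ideal.Quotient.mk Q f ∈ Ideal.span (V : Set (PR K N ⧸ Q))
    rw [Ideal.Quotient.eq_zero_iff_mem.2 hf]
    exact zero_mem _
  have h3 := hI K N n Q (upI Q V) hQ h1 h2
  have h4 := (h3 i).2.1
  have h5 := (h3 (i + 1)).2.1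
  have h6 := Upi24.im_upI hP hgQ hV 0
  have h7 := Upi24.im_upI hP hgQ hV 1
  rw [add_zero, (hP K N Q).2.2.1 V] at h6
  rw [h6] at h4
  rw [h7] at h5
  refine ⟨h1, h2, by omega, ?_⟩
  unfold dg
  omega

end Pool.EGH
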